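import Pool.Agent.MP_6bef34_co.H88.Good

/-! Small tools for the steps `k2` and `lcd` of the contour walk. -/

namespace Pool.Agent.MP_6bef34_co.H50

open Finset
open Pool.Agent.MP_6bef34_co.H7 (Site d Wall Box need corner)
open Pool.Agent.MP_6bef34_co.H28 Pool.Agent.MP_6bef34_co.H88

/-- all rewriting rules of local coordinates in one statement -/
theorem Loc.all {P : ℤ → ℤ → Site} {i : ZMod 6} (L : Loc P i) :
    (∀ x y, P x y + d i = P (x + 1) y) ∧ (∀ x y, P x y + d (i + 1) = P x (y + 1)) ∧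
    (∀ x y, P x y + d (i + 2) = P (x - 1) (y + 1)) ∧ (∀ x y, P x y + d (i + 3) = P (x - 1) y) ∧
    (∀ x y, P x y + d (i + 4) = P x (y - 1)) ∧ (∀ x y, P x y + d (i + 5) = P (x + 1) (y - 1)) ∧
    (∀ x y x' y', P x y = P x' y' ↔ x = x' ∧ y = y') ∧ i - 1 = i + 5 ∧
    (i + 1 + 1 = i + 2 ∧ i + 1 + 2 = i + 3 ∧ i + 1 + 3 = i + 4 ∧ i + 1 + 4 = i + 5 ∧
      i + 1 + 5 = i) ∧
    (i + 2 + 1 = i + 3 ∧ i + 2 + 2 = i + 4 ∧ i + 2 + 3 = i + 5 ∧ i + 2 + 4 = i ∧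
      i + 2 + 5 = i + 1) ∧
    (i + 3 + 1 = i + 4 ∧ i + 3 + 2 = i + 5 ∧ i + 3 + 3 = i ∧ i + 3 + 4 = i + 1 ∧
      i + 3 + 5 = i + 2) ∧
    (i + 4 + 1 = i + 5 ∧ i + 4 + 2 = i ∧ i + 4 + 3 = i + 1 ∧ i + 4 + 4 = i + 2 ∧
      i + 4 + 5 = i + 3) ∧
    (i + 5 + 1 = i ∧ i + 5 + 2 = i + 1 ∧ i + 5 + 3 = i + 2 ∧ i + 5 + 4 = i + 3 ∧
      i + 5 + 5 = i + 4) :=
  ⟨L.s0, L.s1, L.s2, L.s3, L.s4, L.s5, L.inj, ix_m i,
    ⟨ix11 i, ix12 i, ix13 i, ix14 i, ix15 i⟩, ⟨ix21 i, ix22 i, ix23 i, ix24 i, ix25 i⟩,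
    ⟨ix31 i, ix32 i, ix33 i, ix34 i, ix35 i⟩, ⟨ix41 i, ix42 i, ix43 i, ix44 i, ix45 i⟩,
    ⟨ix51 i, ix52 i, ix53 i, ix54 i, ix55 i⟩⟩

variable {De : Finset Site} {u : Site} {j : ZMod 6}

/-- the neighbours of a tip -/
theorem tip_free (h : K0 De u) (hw : Wall De (u + d j)) :
    ¬ Wall De (u + d (j + 1)) ∧ ¬ Wall De (u + d (j + 2)) ∧ ¬ Wall De (u + d (j + 3)) ∧
      ¬ Wall De (u + d (j + 4)) ∧ ¬ Wall De (u + d (j + 5)) := by
  have : ∀ j : ZMod 6, j ≠ j + 1 ∧ j ≠ j + 2 ∧ j ≠ j + 3 ∧ j ≠ j + 4 ∧ j ≠ j + 5 := by decide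
  obtain ⟨a1, a2, a3, a4, a5⟩ := this j
  exact ⟨fun a => a1 (h _ _ hw a), fun a => a2 (h _ _ hw a), fun a => a3 (h _ _ hw a),
    fun a => a4 (h _ _ hw a), fun a => a5 (h _ _ hw a)⟩

/-- the neighbours of a notch -/
theorem notch_free (h1 : K1 De u) (h0 : ¬ K0 De u) (hw : Wall De (u + d j))
    (h5 : ¬ Wall De (u + d (j + 5))) :
    Wall De (u + d (j + 1)) ∧ ¬ Wall De (u + d (j + 2)) ∧ ¬ Wall De (u + d (j + 3)) ∧
      ¬ Wall De (u + d (j + 4)) := by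
  have w1 : Wall De (u + d (j + 1)) := by
    by_contra a
    exact h0 (h1.k0' hw a h5)
  obtain ⟨m, a⟩ := h1
  have b0 := a _ hw
  have b1 := a _ w1
  have : ∀ j m : ZMod 6, (j = m ∨ j = m + 1) → (j + 1 = m ∨ j + 1 = m + 1) →
      ¬ (j + 2 = m ∨ j + 2 = m + 1) ∧ ¬ (j + 3 = m ∨ j + 3 = m + 1) ∧
        ¬ (j + 4 = m ∨ j + 4 = m + 1) := by decide
  obtain ⟨c2, c3, c4⟩ := this j m b0 b1
  exact ⟨w1, fun e => c2 (a _ e), fun e => c3 (a _ e), fun e => c4 (a _ e)⟩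

/-- a second wall neighbour that is separated from the first one -/
theorem need_sep (h0 : ¬ K0 De u) (hw : Wall De (u + d j)) (h1 : ¬ Wall De (u + d (j + 1)))
    (h5 : ¬ Wall De (u + d (j + 5))) : need De u ≤ -4 := by
  refine H7.need_le_neg hw h1 h5 ?_
  by_contra a
  push Not at a
  exact h0 (k0_of h1 a.1 a.2.1 a.2.2 h5)

theorem not_k0 {k : ZMod 6} (h1 : Wall De (u + d j)) (h2 : Wall De (u + d k)) (h : j ≠ k) :
    ¬ K0 De u := fun a => h (a _ _ h1 h2)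

variable {Lo : Pt → Finset Pt → Prop} {N : ℤ} {s t : St Nd} {b : Site} {i : ZMod 6} {p c : Nd}

theorem node_eq (h : t.nd b = c) (hz : t.Z = c.T) : node t b = c := by
  simp only [node, h, hz]

/-- landing on a notch, with the turn -/
theorem land_notch (G : Gm Lo N) (h : Inv (par Lo N) s) (he : s.e = (b, i))
    (hx : s.U (b + d (i + 1))) (ho : Wall s.De (b + d (i + 1) + d i)) (hr : RcOK s b i)
    (hp : p.T = s.Z) (hE : p.Ext Lo c) (hc : c.On (b + d (i + 1))) (hg : p.cost c ≤ s.g + 2) :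
    ∃ t, Inv (par Lo N) t ∧ t.e = (b + d (i + 1), i) ∧ t.De = s.De ∧
      t.R = insert (b + d (i + 1)) s.R ∧ t.V = s.V ∧ t.Z = c.T ∧ t.C = s.C ∧
      node t (b + d (i + 1)) = c ∧ t.g = s.g + 2 - p.cost c ∧ s.mu < t.mu := by
  obtain ⟨nw, a1, a2, a3⟩ := ext_add h hp hE
  have hk : corner (s.addZ nw).e = b + d (i + 1) := by simp [he, corner]
  obtain ⟨b1, b2, b3⟩ := a2.land (n := c) (by rw [hk]; simpa using hx)
    (by rw [hk, a1]; exact ⟨hE.1.1, hE.1.2, hc⟩)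
    (by rw [hk]; exact (box_on G hE.1 hc).mono (by simp only [par]; omega))
    (by simpa [he, RcOK] using hr)
  obtain ⟨c1, c2, c3⟩ := b1.turn (by simpa [he, corner] using ho) (Or.inr (by omega))
  refine ⟨_, c1, by simp [he, corner], rfl, by simp [he, corner], rfl, a1, rfl,
    node_eq (by simp [he, corner]) a1, by omega, ?_⟩
  rw [c3, b3, St.addZ_mu]
  omega

end Pool.Agent.MP_6bef34_co.H50
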