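import Pool.Agent.MP_6bef34_co.H50.Kit
import Pool.Agent.MP_6bef34_co.H28.Pay

/-! Landing on a notch whose only token is spent. -/

namespace Pool.Agent.MP_6bef34_co.H88

open Finset
open Pool.Agent.MP_6bef34_co.H7 (Site d Wall Box need corner wall_insert)
open Pool.Agent.MP_6bef34_co.H28 Pool.Agent.MP_6bef34_co.H50

variable {Lo : Pt → Finset Pt → Prop} {N : ℤ} {s t : St Nd} {b : Site} {i : ZMod 6} {p c : Nd}

/-- the end of a step that gives up the corner and a further neighbour of the next corner -/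
theorem aband_end (he : t.e = (b, i)) (hv : b ∉ t.V) (ht : Inv (par Lo N) t) (hg : 0 ≤ t.g)
    (w1 : Wall t.De (b + d (i + 1))) (w2 : Wall t.De (b + d (i + 2) + d (i + 1)))
    (w3 : ¬ Wall t.De (b + d (i + 2)))
    (hA : ¬ t.U (b + d (i + 2)) ∨ (node t b).nB b ≤ 2 ∨ 2 ≤ fl t b) : Wk Lo N t := by
  obtain ⟨a1, a2, a3⟩ := ht.turn (by simpa [he, corner] using w1) (Or.inr (by omega))
  have e1 : t.turn.e = (b, i + 1) := by simp [he]
  refine Wk.of_le (t := t.turn) ?_ (by omega)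
  by_cases hR : b + d (i + 2) ∈ t.R
  · exact (good_arr a1 e1 ⟨by rw [ix11]; exact hR, Or.inl (by omega)⟩).wk
  have f1 : fl t.turn b = fl t b := by simp only [fl, a2, St.turn_z, St.turn_c]
  have f2 := fl_ge ht b
  refine post3 a1 e1 hv ⟨?_, ?_⟩
  · rw [ix14]
    exact a1.back_dec (i := i) (by simp [he])
  · rcases hA with a | a | a
    · exact absurd ⟨w3, hR⟩ a
    · refine Or.inr ⟨by rw [ix11]; exact w3, by omega, Or.inr (Or.inr (Or.inr (Or.inl ⟨a, ?_⟩)))⟩
      rw [ix11]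
      refine not_k0 (j := i) (k := i + 1) ?_ w2 ((by decide : ∀ i : ZMod 6, i ≠ i + 1) i)
      rw [add_assoc, add_comm (d (i + 2)), H7.d_add]
      exact w1
    · exact Or.inl (by omega)

/-- the notch and the next two or three sites join the wall -/
theorem abandon {P : ℤ → ℤ → Site} (L : Loc P i) (G : Gm Lo N) (h : Inv (par Lo N) s)
    (he : s.e = (P 0 0, i)) (hv : P 0 0 ∉ s.V) (hg : 0 ≤ s.g) (hy : s.U (P 0 1))
    (wo : Wall s.De (P 1 1)) (w3 : ¬ Wall s.De (P (-1) 1)) (u1 : s.U (P 0 2))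
    (u2 : s.U (P (-1) 2)) (u3 : s.U (P (-1) 3)) (c1 : s.c (P 0 2) = 0) (c2 : s.c (P (-1) 2) = 0)
    (c3 : s.c (P (-1) 3) = 0) (z1 : 2 ≤ s.z (P 0 2)) (z2 : 2 ≤ s.z (P (-1) 2))
    (z3 : 4 ≤ s.z (P (-1) 2) ∨ (3 ≤ s.z (P (-1) 2) ∧ 1 ≤ s.z (P (-1) 3)) ∨ 4 ≤ s.z (P (-1) 3))
    (hA : ¬ s.U (P (-1) 1) ∨ (node s (P 0 0)).nB (P 0 0) ≤ 2 ∨ 2 ≤ fl s (P 0 0)) :
    Nx Lo N s := by
  have K := L.all
  have B := box_real G h (head_R h he) hv
  have wa : Wall s.De (P 1 0) := by simpa [K] using head_wall h he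
  have B1 : Box (par Lo N).M (P 0 1) := by simpa [K] using box1 (Lo := Lo) B (i + 1)
  have B2 : Box (par Lo N).M (P 0 2) := by simpa [K] using box2 (Lo := Lo) B (i + 1) (i + 1)
  have B3 : Box (par Lo N).M (P (-1) 2) := by simpa [K] using box2 (Lo := Lo) B (i + 1) (i + 2)
  have B4 : Box (par Lo N).M (P (-1) 3) := by
    simpa [K] using box3 (Lo := Lo) B (i + 1) (i + 2) (i + 1)
  have i1 := h.absorb hy B1
  have g1 := h.g_absorb hy
  have m1 := St.mu_absorb hy
  have n1 : need s.De (P 0 1) ≤ 2 :=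
    H7.need_le_two (j := i + 5) (by simpa [K] using wa) (by simpa [K] using wo)
  have v1 : (s.absorb (P 0 1)).U (P 0 2) := by simpa [St.U_absorb, K] using u1
  have i2 := i1.absorbC v1 B2 2 (by simp [c1, z1]) (by simp [c1])
  have g2 := i1.g_absorbC v1 2
  have m2 := St.mu_absorb v1
  have n2 : need (s.absorb (P 0 1)).De (P 0 2) ≤ 2 :=
    H7.need_le_two (j := i + 4) (by simp [K, wall_insert]) (by simp [K, wall_insert, wo])
  set s2 := ((s.absorb (P 0 1)).absorb (P 0 2)).claim (P 0 2) 2 with hs2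
  have v2 : s2.U (P (-1) 2) := by simpa [hs2, St.U_absorb, K] using u2
  have v3 : s2.U (P (-1) 3) := by simpa [hs2, St.U_absorb, K] using u3
  have n3 : need s2.De (P (-1) 2) ≤ 2 :=
    H7.need_le_two (j := i + 5) (by simp [hs2, K, wall_insert]) (by simp [hs2, K, wall_insert])
  have d2 : s2.c (P (-1) 2) = 0 := by simp [hs2, St.c_claim, K, c2]
  have d3 : s2.c (P (-1) 3) = 0 := by simp [hs2, St.c_claim, K, c3]
  have m3 := St.mu_absorb v2
  have m2' : s2.mu = s.mu + 12 := by rw [hs2, St.claim_mu, m2, m1]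
  have fin : ∀ t : St Nd, Inv (par Lo N) t → t.e = s.e → t.V = s.V → t.R = s.R → t.Z = s.Z →
      t.nd = s.nd → s.g ≤ t.g → t.c (P 0 0) = s.c (P 0 0) → s.mu < t.mu →
      Wall t.De (P 0 1) → Wall t.De (P (-1) 2) → ¬ Wall t.De (P (-1) 1) → Nx Lo N s :=
    fun t a1 a2 a3 a4 a5 a6 a7 a8 a9 w1 w2 w4 => by
      refine Wk.nx (aband_end (a2.trans he) (a3 ▸ hv) a1 (by omega) (by simpa [K] using w1)
        (by simpa [K] using w2) (by simpa [K] using w4) ?_) a9
      rcases hA with a | a | a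
      · refine Or.inl fun e => a ⟨w3, ?_⟩
        simpa [K, a4] using e.2
      · exact Or.inr (Or.inl (by simpa only [node, a5, a6] using a))
      · refine Or.inr (Or.inr ?_)
        simp only [fl, St.z, a5, a8] at a ⊢
        omega
  rcases z3 with z3 | z3 | z3
  · have g3 := i2.g_absorbC v2 4
    refine fin _ (i2.absorbC v2 B3 4 (by simpa [hs2, St.c_claim, K, c2] using z3) (by simp [d2]))
      rfl rfl rfl rfl rfl (by omega) (by simp [hs2, St.c_claim, K])
      (by rw [St.claim_mu]; omega)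
      (by simp [hs2, wall_insert]) (by simp [wall_insert]) (by simp [hs2, wall_insert, K, w3])
  · have g3 := i2.g_absorbC v2 3
    have i3 := i2.absorbB (a := P 0 2) (k := i + 2) (by simp [hs2, wall_insert])
      (by simpa [K] using v2) (by simpa [K] using B3) 3
      (by simpa [hs2, St.c_claim, K, c2] using z3.1)
      (by simp [K, d2]) (by simpa [K] using v3) (by simp [K, d3])
      (by simpa [hs2, St.c_claim, K, c3] using z3.2)
    simp only [K, zero_sub, Int.reduceAdd] at i3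
    refine fin _ i3 rfl rfl rfl rfl rfl (by rw [St.g_claim]; omega)
      (by simp [hs2, St.c_claim, K]) (by rw [St.claim_mu, St.claim_mu]; omega)
      (by simp [hs2, wall_insert]) (by simp [wall_insert]) (by simp [hs2, wall_insert, K, w3])
  · have g3 := i2.g_absorbC v2 2
    have i3 := i2.absorbC v2 B3 2 (by simpa [hs2, St.c_claim, K, c2] using z2) (by simp [d2])
    have v4 : ((s2.absorb (P (-1) 2)).claim (P (-1) 2) 2).U (P (-1) 3) := by
      simpa [St.U_absorb, K] using v3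
    have g4 := i3.g_absorbC v4 4
    have m4 := St.mu_absorb v4
    have n4 : need ((s2.absorb (P (-1) 2)).claim (P (-1) 2) 2).De (P (-1) 3) ≤ 2 :=
      H7.need_le_two (j := i + 4) (by simp [K, wall_insert]) (by simp [hs2, K, wall_insert])
    refine fin _ (i3.absorbC v4 B4 4 (by simpa [St.c_claim, K, c3, hs2] using z3)
      (by simp [St.c_claim, K, d3])) rfl rfl rfl rfl rfl (by omega)
      (by simp [hs2, St.c_claim, K]) (by rw [St.claim_mu, m4, St.claim_mu]; omega)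
      (by simp [hs2, wall_insert]) (by simp [wall_insert]) (by simp [hs2, wall_insert, K, w3])

/-- after the landing, when the first two open positions are blocked tips -/
theorem lcd_two {P : ℤ → ℤ → Site} (L : Loc P i) (G : Gm Lo N) (h : Inv (par Lo N) t)
    (he : t.e = (P 0 1, i)) (hv : P 0 1 ∉ t.V) (hg : 0 ≤ t.g)
    (hH : (node t (P 0 1)).nB (P 0 1) ≤ 2) (u1 : t.U (P 0 2)) (k1 : K0 t.De (P 0 2))
    (z1 : 3 ≤ t.z (P 0 2)) (u2 : t.U (P (-1) 2)) (k2 : K0 (insert (P 0 2) t.De) (P (-1) 2))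
    (z2 : 3 ≤ t.z (P (-1) 2))
    (hc : t.U (P (-1) 3) → K0 (insert (P 0 2) t.De) (P (-1) 3) → Wk Lo N t ∨
      ∃ c', (node t (P 0 1)).Ext Lo c' ∧ (node t (P 0 1)).cost c' ≤ 2 ∧ c'.Adj (P (-1) 3) ∧
        ¬ c'.Blk (P (-1) 3)) : Wk Lo N t := by
  have K := L.all
  have B := box_real G h (head_R h he) hv
  have wa : Wall t.De (P 1 1) := by simpa [K] using head_wall h he
  have c1 := h.u0 _ u1 k1
  obtain ⟨f1, f2, f3, f4, f5⟩ := tip_free (j := i + 5) k1 (by simpa [K] using wa)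
  simp only [K, zero_add, zero_sub, Int.reduceAdd, Int.reduceSub] at f1 f2 f3 f4 f5
  obtain ⟨r, a1, -, a3, a4⟩ := at_own h he (by simpa [K] using u1) (box1 B _) 3
    (by simp [K, c1]) (by simpa [K] using z1) (by omega)
  have n1 : need t.De (P 0 2) ≤ 4 := H7.need_le_four (j := i + 5) (by simpa [K] using wa)
  simp only [K, Int.reduceAdd, c1] at a3 a4
  have eD : r.De = insert (P 0 2) t.De := by simpa [K] using a1.De
  have v2 : r.U (P (-1) 2) := by simpa [a1.U, K] using u2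
  have c2 : r.c (P (-1) 2) = 0 := a1.inv.u0 _ v2 (eD ▸ k2)
  have rv : P 0 1 ∉ r.V := a1.V ▸ hv
  have rc : RcOK r (P 0 1) (i + 1) := fun _ _ _ a => absurd a a1.e3
  have rz : 3 ≤ r.z (P 0 1 + d (i + 1 + 1)) := by simpa [K, a1.z] using z2
  by_cases hR : P (-1) 3 ∈ t.R
  · refine (Nx.of_le (passR G a1.inv a1.e rv (by simpa [K] using v2) (by simpa [K] using c2) rz
      (by simpa [K, a1.R] using hR) rc (m := 0) (by omega) (Or.inl (a1.node _ ▸ hH))
      (Or.inl rfl) (by omega)) a1.mu.le).wk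
  have u3 : t.U (P (-1) 3) := ⟨f3, hR⟩
  have v3 : r.U (P (-1) 3) := by simpa [a1.U, K] using u3
  by_cases k3 : K0 (insert (P 0 2) t.De) (P (-1) 3)
  swap
  · have n3 : need r.De (P (-1) 3) ≤ -4 := by
      rw [eD]
      exact need_sep (j := i + 5) k3 (by simp [K, wall_insert]) (by simp [K, wall_insert, f2])
        (by simpa [K, wall_insert] using u2.1)
    have i3 := a1.inv.absorb v3 (by simpa [K] using box2 (Lo := Lo) B (i + 2) (i + 1))
    have g3 := a1.inv.g_absorb v3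
    have m3 := St.mu_absorb v3
    have m1 := a1.mu
    refine Wk.of_le (good_c3 i3 a1.e rv ⟨fun a => a1.e3 (St.U_absorb.1 a).2,
      Or.inl (by omega)⟩).wk (by omega)
  rcases hc u3 k3 with a | ⟨c', b1, b2, b3, b4⟩
  · exact a
  have c3 : r.c (P (-1) 3) = 0 := a1.inv.u0 _ v3 (eD ▸ k3)
  exact (Nx.of_le (passTo G a1.inv a1.e rv (by simpa [K] using v2) (by simpa [K] using c2) rz
    (by simpa [K] using v3) (by simpa [K, eD] using k3.k1) rc (m := 1) le_rfl
    (Or.inl (a1.node _ ▸ hH)) (Or.inr (Or.inr a1.e3)) (p := node t (P 0 1)) a1.Z.symm b1 b2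
    (by simpa [K] using b3) (by simpa [K] using b4) (by push_cast; omega)
    (Or.inl (by simpa [K] using c3))) a1.mu.le).wk

theorem lcd (G : Gm Lo N) (h : Inv (par Lo N) s) (he : s.e = (b, i)) (hv : b ∉ s.V)
    (hg : 0 ≤ s.g) (hx : s.U (b + d (i + 1))) (h1 : K1 s.De (b + d (i + 1)))
    (hc : s.c (b + d (i + 1)) = 1) (hz : s.z (b + d (i + 1)) ≤ 1)
    (hw : ¬ Wall s.De (b + d (i + 2))) (hr : RcOK s b i)
    (hA : ¬ s.U (b + d (i + 2)) ∨ (node s b).nB b ≤ 2 ∨ 2 ≤ fl s b) : Nx Lo N s := by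
  obtain ⟨P, L, rfl⟩ := exists_loc b i
  have K := L.all
  have hb := head_R h he
  obtain ⟨po, pn⟩ := node_ok h hb hv
  have h0 : ¬ K0 s.De (P 0 0 + d (i + 1)) := fun a => by
    have := h.u0 _ hx a
    omega
  obtain ⟨wo, f1, f2, -⟩ := notch_free (j := i + 5) h1 h0 (by simpa [K] using head_wall h he)
    (by simpa [K] using h.geo.free _ hb)
  obtain ⟨c, e1, e2, e3, e4⟩ := lcd_game G po (pn.adj (i + 1)) hz i
  have g3 : c.G3 (P 0 0 + d (i + 1)) (P 0 0 + d (i + 1) + d (i + 1)) 1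
      (2 - (node s (P 0 0)).cost c) → Nx Lo N s := fun a => by
    obtain ⟨nw, a1, a2, a3⟩ := ext_add h rfl e1
    exact (land3n G a2 (b := P 0 0) (i := i) he rfl hx h1 h0 hr e1.1 e2 a1.symm
      (by rw [St.addZ_c, hc]; exact a.mono (by omega))).of_le (by simp)
  by_cases hn : 2 ≤ c.cnt (P 0 0 + d (i + 1))
  · have := Nd.nB_le_cnt e1.1.2 (P 0 0 + d (i + 1))
    refine g3 ?_
    by_cases a : 3 ≤ c.cnt (P 0 0 + d (i + 1))
    · exact Or.inl (by omega)
    · exact Or.inr (Or.inl ⟨by omega, by omega⟩)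
  refine e4.elim g3 fun e4 => ?_
  have hH : c.nB (P 0 0 + d (i + 1)) ≤ 2 := by
    have := Nd.nB_le_cnt e1.1.2 (P 0 0 + d (i + 1))
    omega
  obtain ⟨t, a1, a2, a3, a4, a5, a6, a7, a8, a9, a10⟩ := land_notch G h he hx
    (by simpa [K] using wo) hr rfl e1 e2 (by omega)
  simp only [K, zero_add, zero_sub, Int.reduceAdd,
    Int.reduceNeg] at hx hw hA f1 f2 wo e4 hH a2 a4 a8
  have tv : P 0 1 ∉ t.V := fun a => hx.2 (h.vR (a5 ▸ a))
  have tb : P 0 0 ∈ t.R := a4 ▸ mem_insert_of_mem hb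
  have tz : ∀ u, t.z u = c.cnt u := fun u => by simp only [St.z, a6, Nd.cnt]
  have t4 : ¬ t.U (P 0 1 + d (i + 4)) := fun a => a.2 (by simpa [K] using tb)
  have tr : RcOK t (P 0 1) i := fun _ _ _ a => absurd a t4
  have nc : c.NC3 (P 0 2) := e4.elim And.left And.left
  have z1 : 3 ≤ t.z (P 0 2) := tz _ ▸ Nd.Blk.three e1.1.2 nc.1
  by_cases r1 : P 0 2 ∈ t.R
  · exact (good_arr a1 a2 ⟨by simpa [K] using r1, Or.inl (by omega)⟩).wk.nx a10
  have u1 : t.U (P 0 2) := ⟨a3 ▸ f1, r1⟩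
  by_cases k1 : K0 t.De (P 0 2)
  swap
  · have := fl_ge a1 (P 0 1)
    exact (post3 a1 a2 tv ⟨t4, Or.inr ⟨by simpa [K] using u1.1, by omega,
      Or.inr (Or.inr (Or.inr (Or.inl ⟨a8.symm ▸ hH, by simpa [K] using k1⟩)))⟩⟩).nx a10
  by_cases r2 : P (-1) 2 ∈ t.R
  · exact (lackR G a1 a2 tv (by simpa [K] using u1) (by simpa [K] using z1)
      (by simpa [K] using r2) (by omega)).of_le a10.le
  have u2 : t.U (P (-1) 2) := ⟨a3 ▸ f2, r2⟩
  by_cases k2 : K0 (insert (P 0 2) t.De) (P (-1) 2)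
  swap
  · exact (lackG G a1 a2 tv (by simpa [K] using u1) (by simpa [K] using k1)
      (by simpa [K] using z1) (by simpa [K] using u2) (by simpa [K] using k2)
      (by omega)).of_le a10.le
  rcases e4 with ⟨-, b1, b2⟩ | ⟨-, b1, b2⟩
  · exact (retest G a1 a2 tv (by omega) (by simpa [K] using u1) (by simpa [K] using k1)
      (by simpa [K, a8] using nc) (by simpa [K] using u2) (by simpa [K] using k2)
      (by simpa [K, a8] using b1) tr (Or.inr (by simpa [K, a8, tz] using b2))).of_le a10.le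
  have z2 : 3 ≤ t.z (P (-1) 2) := tz _ ▸ Nd.Blk.three e1.1.2 b1
  have back : ∀ u, t.U u → s.U u := fun u a =>
    ⟨a3 ▸ a.1, fun e => a.2 (a4 ▸ mem_insert_of_mem e)⟩
  by_cases hab : t.U (P (-1) 3) ∧ K0 (insert (P 0 2) t.De) (P (-1) 3) ∧
      ¬ ∃ c', c.Ext Lo c' ∧ ((c.cost c' ≤ 2 ∧ c'.Adj (P (-1) 3) ∧ ¬ c'.Blk (P (-1) 3)) ∨
        (c'.On (P 0 2) ∧ c'.F4 (P 0 2) (2 - c.cost c')) ∨
        (c'.On (P (-1) 2) ∧ c'.F4 (P (-1) 2) (2 - c.cost c' - c'.pay (P 0 2))))
  · obtain ⟨u3, k3, n⟩ := hab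
    obtain ⟨q1, q2, q3⟩ := b2.resolve_right n
    exact abandon L G h he hv hg hx wo hw (back _ u1) (back _ u2) (back _ u3)
      (h.u0 _ (back _ u1) (a3 ▸ k1)) (h.u0 _ (back _ u2) (a3 ▸ k2.anti (subset_insert _ _)))
      (h.u0 _ (back _ u3) (a3 ▸ k3.anti (subset_insert _ _))) q1 q2 q3 hA
  refine (lcd_two L G a1 a2 tv (by omega) (a8.symm ▸ hH) u1 k1 z1 u2 k2 z2
    fun u3 k3 => ?_).nx a10
  obtain ⟨c', q1, q2⟩ := not_not.1 fun a => hab ⟨u3, k3, a⟩
  rw [a8]
  rcases q2 with q2 | q2 | q2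
  · exact Or.inr ⟨c', q1, q2⟩
  · exact Or.inl (crossTo G a1 a2 (by simpa [K] using u1) (by simpa [K] using k1) tr a6.symm q1
      (by simpa [K] using q2.1) (by simpa [K] using q2.2.mono (by omega))).wk
  · have := fl_ge a1 (P 0 1)
    refine Or.inl (absLand4 G a1 a2 tv (by simpa [K] using u1) (by simpa [K] using k1)
      (by simpa [K] using u2) (by simpa [K] using k2) a6.symm q1 (by simpa [K] using q2.1) ?_
      (Or.inl (by simpa [K] using q2.2.mono (by omega)))).wk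
    have := Multiset.count_le_of_le (P 0 2) q1.2
    rw [tz] at z1
    simp only [K, Int.reduceAdd, Nd.cnt] at z1 ⊢
    omega

end Pool.Agent.MP_6bef34_co.H88
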