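import Pool.Agent.MP_6bef34_co.H7.Geo

/-! Local coordinates round a dart: `P x y = b + x • d i + y • d (i + 1)`. -/

namespace Pool.Agent.MP_6bef34_co.H50

open Pool.Agent.MP_6bef34_co.H7

/-- `P` is a system of coordinates along the directions `i` and `i + 1` -/
structure Loc (P : ℤ → ℤ → Site) (i : ZMod 6) : Prop where
  s0 : ∀ x y, P x y + d i = P (x + 1) y
  s1 : ∀ x y, P x y + d (i + 1) = P x (y + 1)
  s2 : ∀ x y, P x y + d (i + 2) = P (x - 1) (y + 1)
  s3 : ∀ x y, P x y + d (i + 3) = P (x - 1) y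
  s4 : ∀ x y, P x y + d (i + 4) = P x (y - 1)
  s5 : ∀ x y, P x y + d (i + 5) = P (x + 1) (y - 1)
  inj : ∀ x y x' y', P x y = P x' y' ↔ x = x' ∧ y = y'

theorem d_tab (i : ZMod 6) :
    d (i + 2) = d (i + 1) - d i ∧ d (i + 3) = -d i ∧ d (i + 4) = -d (i + 1) ∧
      d (i + 5) = d i - d (i + 1) ∧
      (d i).1 * (d (i + 1)).2 - (d i).2 * (d (i + 1)).1 = -1 := by revert i; decide

theorem exists_loc (b : Site) (i : ZMod 6) : ∃ P, Loc P i ∧ P 0 0 = b := by
  obtain ⟨h2, h3, h4, h5, h6⟩ := d_tab i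
  refine ⟨fun x y => b + x • d i + y • d (i + 1), ⟨fun x y => ?_, fun x y => ?_, fun x y => ?_,
    fun x y => ?_, fun x y => ?_, fun x y => ?_, fun x y x' y' => ⟨fun h => ?_, ?_⟩⟩, by simp⟩
  · module
  · module
  · rw [h2]; module
  · rw [h3]; module
  · rw [h4]; module
  · rw [h5]; module
  · simp only [Prod.ext_iff, Prod.fst_add, Prod.snd_add, Prod.smul_fst, Prod.smul_snd,
      smul_eq_mul] at h
    constructor
    · linear_combination -(d (i + 1)).2 * h.1 + (d (i + 1)).1 * h.2 + (x - x') * h6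
    · linear_combination (d i).2 * h.1 - (d i).1 * h.2 + (y - y') * h6
  · rintro ⟨rfl, rfl⟩
    rfl

theorem ix_m (i : ZMod 6) : i - 1 = i + 5 := by revert i; decide
theorem ix11 (i : ZMod 6) : i + 1 + 1 = i + 2 := by revert i; decide
theorem ix12 (i : ZMod 6) : i + 1 + 2 = i + 3 := by revert i; decide
theorem ix13 (i : ZMod 6) : i + 1 + 3 = i + 4 := by revert i; decide
theorem ix14 (i : ZMod 6) : i + 1 + 4 = i + 5 := by revert i; decide
theorem ix15 (i : ZMod 6) : i + 1 + 5 = i := by revert i; decide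
theorem ix21 (i : ZMod 6) : i + 2 + 1 = i + 3 := by revert i; decide
theorem ix22 (i : ZMod 6) : i + 2 + 2 = i + 4 := by revert i; decide
theorem ix23 (i : ZMod 6) : i + 2 + 3 = i + 5 := by revert i; decide
theorem ix24 (i : ZMod 6) : i + 2 + 4 = i := by revert i; decide
theorem ix25 (i : ZMod 6) : i + 2 + 5 = i + 1 := by revert i; decide
theorem ix31 (i : ZMod 6) : i + 3 + 1 = i + 4 := by revert i; decide
theorem ix32 (i : ZMod 6) : i + 3 + 2 = i + 5 := by revert i; decide
theorem ix33 (i : ZMod 6) : i + 3 + 3 = i := by revert i; decide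
theorem ix34 (i : ZMod 6) : i + 3 + 4 = i + 1 := by revert i; decide
theorem ix35 (i : ZMod 6) : i + 3 + 5 = i + 2 := by revert i; decide
theorem ix41 (i : ZMod 6) : i + 4 + 1 = i + 5 := by revert i; decide
theorem ix42 (i : ZMod 6) : i + 4 + 2 = i := by revert i; decide
theorem ix43 (i : ZMod 6) : i + 4 + 3 = i + 1 := by revert i; decide
theorem ix44 (i : ZMod 6) : i + 4 + 4 = i + 2 := by revert i; decide
theorem ix45 (i : ZMod 6) : i + 4 + 5 = i + 3 := by revert i; decide
theorem ix51 (i : ZMod 6) : i + 5 + 1 = i := by revert i; decide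
theorem ix52 (i : ZMod 6) : i + 5 + 2 = i + 1 := by revert i; decide
theorem ix53 (i : ZMod 6) : i + 5 + 3 = i + 2 := by revert i; decide
theorem ix54 (i : ZMod 6) : i + 5 + 4 = i + 3 := by revert i; decide
theorem ix55 (i : ZMod 6) : i + 5 + 5 = i + 4 := by revert i; decide

end Pool.Agent.MP_6bef34_co.H50
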